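import Pool.Agent.Lib_helper29.RP.Dual
import Pool.Agent.Lib_helper29.RO.Defs
import Pool.Agent.Lib_helper28.TE28.Statement
import Pool.Agent.Lib_helper29.NF.FinalD

/-!
# Powers of varieties, residual representations and norm forms: definitions
-/

set_option autoImplicit false

namespace Pool.Agent.RU

open Matrix NumberField
open Pool.Agent.TT (Qbar)
open Pool.Agent.TF (Stratum FrobeniusValues strataSum charSum SymForm)
open Pool.Agent.RF (CardTraces ContainsSp)
open Pool.Agent.RP (SelfDual)
open Pool.Agent.RO (ContainsOmega)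
open Pool.Agent.NF (Reps wdet)

/-- A function that takes a value in `K` for every finite field with a homomorphism from the ring
of integers of `K`. -/
abbrev FrobFun (K : Type) [Field K] : Type 1 :=
  ∀ (F : Type) [Field F] [Fintype F], (𝓞 K →+* F) → K

/-- No power of some element of the image of `ρ` is a scalar. -/
def NonscalarPowers {G : Type*} [Group G] {D : ℕ} {C : Type*} [Field C]
    (ρ : G →* Matrix (Fin D) (Fin D) C) : Prop :=
  ∃ σ, ∀ n : ℕ, 0 < n → ∀ c : C, ρ σ ^ n ≠ c • 1

section types

variable {K : Type} [Field K] [Algebra K Qbar] {p : ℕ} [Fact p.Prime] {D : ℕ}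

/-- Type (S), a residual image that contains a symplectic or an orthogonal group. The numbers `T`
are the character sums of a finite family `S` of affine spaces with polynomials over the integers of
`K` and integral coefficients, for a character of order `p ^ e`, and `r` is a representation with
open kernel over an algebraic closure of the prime field, with the numbers of points of the strata
as traces; its image contains a conjugate of a symplectic group in `D ≥ 4` variables or, for
`p ≥ 5`, of the commutator subgroup of an orthogonal group in `D ≥ 5` variables; `p` does not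
divide `D`; `D < p` or no power of some `ρ(σ)` is a scalar; `ρ` is not a similitude of a nonzero
bilinear form. -/
structure ResidualData (T : FrobFun K) (ρ : (Qbar ≃ₐ[K] Qbar) →* Matrix (Fin D) (Fin D) ℂ_[p])
    (e : ℕ) (ζ : 𝓞 K) {s : ℕ} (S : Fin s → Stratum K)
    (r : (Qbar ≃ₐ[K] Qbar) →* Matrix (Fin D) (Fin D) (AlgebraicClosure (ZMod p))) : Prop where
  prim : IsPrimitiveRoot ζ (p ^ e)
  sum : ∀ (F : Type) [Field F] [Fintype F] (φ : 𝓞 K →+* F), T F φ = (strataSum (p ^ e) ζ φ S : 𝓞 K)
  ker : IsOpen (r.ker : Set (Qbar ≃ₐ[K] Qbar))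
  traces : CardTraces (fun σ => (r σ).trace) S
  contains : ContainsSp r ∨ (ContainsOmega r ∧ 5 ≤ p)
  not_dvd : ¬ p ∣ D
  size : D < p ∨ NonscalarPowers ρ
  not_dual : ¬ SelfDual ρ

/-- Type (S). -/
def TypeS (T : FrobFun K) (ρ : (Qbar ≃ₐ[K] Qbar) →* Matrix (Fin D) (Fin D) ℂ_[p]) : Prop :=
  ∃ (e : ℕ) (ζ : 𝓞 K) (s : ℕ) (S : Fin s → Stratum K)
    (r : (Qbar ≃ₐ[K] Qbar) →* Matrix (Fin D) (Fin D) (AlgebraicClosure (ZMod p))),
    ResidualData T ρ e ζ S r

/-- Type (N), norm forms. The numbers `T` are, up to the sign `(-1) ^ N`, the character sums over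
projective space of `f`, a constant times the product of `n ≥ 4 N + 2` conjugate linear forms in
general position in `N + 1 ≥ 3` variables and of a power of `x₀`, permuted by the Galois group
through all permutations, for a character of order `p ^ e`; `D` is the dimension of the cohomology
and `w` its weight, and for some element `s` of the Galois group that fixes the linear forms
`ρ(s) - 1` has rank one and `det ρ(s)` is not `-1`. -/
structure NormData (T : FrobFun K) (w : ℕ)
    (ρ : (Qbar ≃ₐ[K] Qbar) →* Matrix (Fin D) (Fin D) ℂ_[p]) (e : ℕ) (ζ : 𝓞 K) {N n b : ℕ}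
    (f : SymForm K N n b) : Prop where
  prim : IsPrimitiveRoot ζ (p ^ e)
  sum : ∀ (F : Type) [Field F] [Fintype F] (φ : 𝓞 K →+* F),
    ((Fintype.card F : K) - 1) * T F φ = (-1) ^ N * (charSum (p ^ e) ζ φ f.G : 𝓞 K)
  e_ne : e ≠ 0
  two_le : 2 ≤ N
  size : 4 * N + 2 ≤ n
  dvd : p ^ e ∣ n + b
  case : b = 0 ∨ ¬ p ∣ n
  weight : w = N
  dim : D = if b = 0 then (n - 2).choose N else (n - 1).choose N
  refl : ∃ s : Qbar ≃ₐ[K] Qbar, (∀ i j, s (f.L i j : Qbar) = f.L i j) ∧
    (ρ s - 1).rank = 1 ∧ (ρ s).det ≠ -1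

/-- Type (N). -/
def TypeN (T : FrobFun K) (w : ℕ) (ρ : (Qbar ≃ₐ[K] Qbar) →* Matrix (Fin D) (Fin D) ℂ_[p]) : Prop :=
  ∃ (e : ℕ) (ζ : 𝓞 K) (N n b : ℕ) (f : SymForm K N n b), NormData T w ρ e ζ f

end types

/-- For different `a` and `c` the functions `tr ρ(σ) * tr ρ(σ⁻¹)` are different. -/
def Unrelated {G : Type*} [Group G] {C : Type*} [Field C] {κ : Type*} {D : κ → ℕ}
    (ρ : Reps G C D) : Prop :=
  ∀ a c, a ≠ c → ∃ σ, (ρ a σ).trace * (ρ a σ⁻¹).trace ≠ (ρ c σ).trace * (ρ c σ⁻¹).trace

/-- Every multiplicative relation, on an open subgroup, between the normalised determinants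
`det(ρ a) ^ 2 * χ ^ (w a * D a)`, with exponents `t a` such that `|t a| * D a` is at most the number
of the `i` with `j i = a`, involves at most one of them, and this one only if it satisfies `E`. -/
def Independent {G : Type*} [Group G] [TopologicalSpace G] {C : Type*} [Field C] {κ : Type*}
    [Fintype κ] {D : κ → ℕ} (χ : G → C) (w : κ → ℕ) (ρ : Reps G C D) (E : κ → Prop) {m : ℕ}
    (j : Fin m → κ) : Prop :=
  ∀ H : Subgroup G, IsOpen (H : Set G) → ∀ t : κ → ℤ,
    (∀ a, |t a| * D a ≤ Nat.card {i // j i = a}) →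
    (∀ h ∈ H, ∏ a, wdet χ w ρ a h ^ t a = 1) → ∀ a, t a ≠ 0 → E a ∧ ∀ b, t b ≠ 0 → b = a

/-- A finite family of functions `T a` and of embeddings of `K`. -/
structure Family (K : Type) [Field K] [Algebra K Qbar] (κ : Type) where
  T : κ → FrobFun K
  emb : κ → (K →+* Qbar)

/-- The `ρ a` are continuous and have the traces `T a`. -/
structure Realises {K : Type} [Field K] [Algebra K Qbar] {κ : Type} (S : Family K κ) {C : Type}
    [Field C] [TopologicalSpace C] (i : Qbar →+* C) {D : κ → ℕ}
    (ρ : Reps (Qbar ≃ₐ[K] Qbar) C D) : Prop where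
  cont : ∀ a, Continuous (ρ a)
  traces : ∀ a, FrobeniusValues (fun σ => (ρ a σ).trace) fun F _ _ φ => i (S.emb a (S.T a F φ))

end Pool.Agent.RU
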