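import Pool.Agent.Lib_helper29.RU.Defs
import Pool.Agent.Lib_helper29.RP.Final
import Pool.Agent.Lib_helper29.RO.OProj

/-!
# Powers of varieties, residual representations and norm forms
-/

set_option autoImplicit false
set_option linter.unusedSectionVars false

namespace Pool.Agent.RU

open Matrix NumberField
open Pool.Agent.TT (Qbar pl_frob_pow)
open Pool.Agent.TF (Stratum FrobeniusValues strataSum strataCard er_trace ft_phi HasTraces)
open Pool.Agent.RF (SumTraces CardTraces ContainsSp norm_p_lt)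
open Pool.Agent.TB (cycC cycC_one cycC_mul cycC_continuous cycC_ne_zero np_charpoly)
open Pool.Agent.TE (CompatC HasCompanions)
open Pool.Agent.NF (Reps Big Generated Balanced IrreducibleOn Companions NoRel fin_galois fin_p0
  wdet OwnReflection OwnTransvection norm_bigTE choose_ge)
open Pool.Agent.RP (sp_single big_of_single powers_of_big dim_of_sp)
open Pool.Agent.RO (omega_single omega_nonscalar)

/-- The values at the powers of a Frobenius element. -/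
theorem ru_pow {K : Type} [Field K] [NumberField K] [Algebra K Qbar] (T : FrobFun K) {q : ℕ}
    (hq : q.Prime) {Q : Ideal (𝓞 Qbar)} (hQ : Q.IsPrime) (hqQ : (q : 𝓞 Qbar) ∈ Q)
    {σ : Qbar ≃ₐ[K] Qbar} (hσ : ∀ x y : 𝓞 Qbar, (y : Qbar) = σ x → y - x ^ q ∈ Q) :
    ∃ t : ℕ → K, ∀ (k : Type) [Field k] [CharZero k] (f : (Qbar ≃ₐ[K] Qbar) → k) (ι : K →+* k),
      (∀ (F : Type) [Field F] [Fintype F] (φ : 𝓞 K →+* F),
      (∀ x : 𝓞 K, φ x = 0 ↔ algebraMap (𝓞 K) (𝓞 Qbar) x ∈ Q) →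
      ∀ σ : Qbar ≃ₐ[K] Qbar, (∀ x y : 𝓞 Qbar, (y : Qbar) = σ x → y - x ^ Fintype.card F ∈ Q) →
        f σ⁻¹ = ι (T F φ)) →
      ∀ r : ℕ, 1 ≤ r → f (σ⁻¹ ^ r) = ι (t r) := by
  have hqF : Fact q.Prime := ⟨hq⟩
  obtain ⟨φp, hφp, _⟩ := ft_phi hq hQ hqQ hσ
  let _ : ∀ r, Fintype (GaloisField q r) := fun r => Fintype.ofFinite _
  have hcardF : ∀ r, 1 ≤ r → Fintype.card (GaloisField q r) = q ^ r := by
    intro r hr
    rw [← Nat.card_eq_fintype_card]
    exact GaloisField.card q r (by omega)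
  let φ : ∀ r, 𝓞 K →+* GaloisField q r := fun r =>
    (algebraMap (ZMod q) (GaloisField q r)).comp φp
  refine ⟨fun r => T (GaloisField q r) (φ r), ?_⟩
  intro k _ _ f ι hT r hr
  have h1 := hT (GaloisField q r) (φ r) (by
    intro x
    rw [← hφp]
    exact map_eq_zero_iff _ (algebraMap (ZMod q) (GaloisField q r)).injective) (σ ^ r) (by
    rw [hcardF r hr]
    exact pl_frob_pow hσ r)
  rw [← inv_pow] at h1
  exact h1

section

variable {K : Type} [Field K] [NumberField K] [Algebra K Qbar] {κ : Type} [Fintype κ]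
  [DecidableEq κ] {D : κ → ℕ}

theorem ru_compat {r ℓ : ℕ} [Fact r.Prime] [Fact ℓ.Prime] (S : Family K κ)
    (ip : Qbar →+* ℂ_[r]) (il : Qbar →+* ℂ_[ℓ]) (ρ : Reps (Qbar ≃ₐ[K] Qbar) ℂ_[r] D)
    (π : Reps (Qbar ≃ₐ[K] Qbar) ℂ_[ℓ] D)
    (hρ : Realises S ip ρ) (hπ : Realises S il π) : CompatC ip il ρ π := by
  classical
  choose B₁ hB₁ using hρ.traces
  choose B₂ hB₂ using hπ.traces
  refine ⟨Finset.univ.biUnion fun a => B₁ a ∪ B₂ a, ?_⟩
  intro q hq hqB Q hQ hqQ σ hσ a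
  have hqa : q ∉ B₁ a ∪ B₂ a := fun h =>
    hqB (Finset.mem_biUnion.mpr ⟨a, Finset.mem_univ a, h⟩)
  rw [Finset.mem_union, not_or] at hqa
  obtain ⟨t, ht⟩ := ru_pow (S.T a) hq hQ hqQ hσ
  have h1 := ht ℂ_[r] (fun σ => (ρ a σ).trace) (ip.comp (S.emb a))
    (fun F _ _ φ hφ τ hτ => hB₁ a q hq hqa.1 Q hQ hqQ F φ hφ τ hτ)
  have h2 := ht ℂ_[ℓ] (fun σ => (π a σ).trace) (il.comp (S.emb a))
    (fun F _ _ φ hφ τ hτ => hB₂ a q hq hqa.2 Q hQ hqQ F φ hφ τ hτ)
  have hinj : ∀ {k : Type} [Field k] {d : ℕ} (τ : (Qbar ≃ₐ[K] Qbar) →* Matrix (Fin d) (Fin d) k),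
      Function.Injective (Matrix.toLin' (τ σ⁻¹)) := by
    intro k _ d τ x y hxy
    have h3 : Matrix.toLin' (τ σ) (Matrix.toLin' (τ σ⁻¹) x) =
        Matrix.toLin' (τ σ) (Matrix.toLin' (τ σ⁻¹) y) := by rw [hxy]
    rw [← Matrix.toLin'_mul_apply, ← Matrix.toLin'_mul_apply, ← map_mul, mul_inv_cancel, map_one,
      Matrix.toLin'_one, LinearMap.id_apply, LinearMap.id_apply] at h3
    exact h3
  obtain ⟨f, hf1, hf2⟩ := np_charpoly (ip.comp (S.emb a)) (il.comp (S.emb a))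
    (Matrix.toLin' (ρ a σ⁻¹)) (Matrix.toLin' (π a σ⁻¹)) (hinj (ρ a)) (hinj (π a)) t (by
    intro j hj
    have h3 : ρ a (σ⁻¹ ^ j) = ρ a σ⁻¹ ^ j := map_pow _ _ _
    rw [← h1 j hj, h3, ← Matrix.toLin'_pow, Matrix.trace_toLin'_eq]) (by
    intro j hj
    have h3 : π a (σ⁻¹ ^ j) = π a σ⁻¹ ^ j := map_pow _ _ _
    rw [← h2 j hj, h3, ← Matrix.toLin'_pow, Matrix.trace_toLin'_eq])
  refine ⟨f.map (S.emb a), ?_, ?_⟩
  · rw [Polynomial.map_map, ← hf1, Matrix.charpoly_toLin']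
  · rw [Polynomial.map_map, ← hf2, Matrix.charpoly_toLin']

/-- Type (S): the dimension and the logarithms. -/
theorem typeS_big {p : ℕ} [hp : Fact p.Prime] (hp2 : p ≠ 2) {d : ℕ} (T : FrobFun K)
    (ρ : (Qbar ≃ₐ[K] Qbar) →* Matrix (Fin d) (Fin d) ℂ_[p]) (hρ : Continuous ρ)
    (ι : K →+* ℂ_[p]) (hT : FrobeniusValues (fun σ => (ρ σ).trace) fun F _ _ φ => ι (T F φ))
    (h : TypeS T ρ) : 3 ≤ d ∧ Big p (fun _ : Unit => ρ) := by
  have hgal := fin_galois K
  obtain ⟨e, ζ, s, S, r, h⟩ := h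
  have hchar : CharP (AlgebraicClosure (ZMod p)) p := inferInstance
  have hT' : FrobeniusValues (fun σ => (ρ σ).trace) fun _ _ _ φ =>
      ι (strataSum (p ^ e) ζ φ S : 𝓞 K) := by
    obtain ⟨B, hB⟩ := hT
    refine ⟨B, fun q hq hqB Q hQ hqQ F _ _ φ hφ σ hσ => ?_⟩
    have h1 := hB q hq hqB Q hQ hqQ F φ hφ σ hσ
    have h2 := h.sum F φ
    show (ρ σ⁻¹).trace = ι (strataSum (p ^ e) ζ φ S : 𝓞 K)
    rw [← h2]
    exact h1
  have htr : ∀ g, ∃ t : ℤ, ‖(ρ g).trace - t‖ < 1 ∧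
      (r g).trace = (t : AlgebraicClosure (ZMod p)) := by
    intro g
    obtain ⟨t, h1, h2⟩ := er_trace hp.out h.prim S (norm_p_lt p) ι (T := fun σ => (ρ σ).trace)
      hρ.matrix_trace hT' r h.ker h.traces g
    exact ⟨t, h1, h2.symm⟩
  rcases h.contains with hc | ⟨hc, hp5⟩
  · refine ⟨?_, sp_single hp2 ρ hρ r hc htr h.not_dvd h.size h.not_dual⟩
    have := dim_of_sp hc
    omega
  · refine ⟨?_, omega_single hp5 ρ hρ r hc htr h.not_dvd (fun N hN => ?_) h.not_dual⟩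
    · obtain ⟨F, _, _, B, P, Q, hd, -⟩ := hc
      omega
    · rcases h.size with hs | ⟨σ, hσ⟩
      · exact omega_nonscalar hp5 hs ρ r hc htr N hN
      · have hfi : N.FiniteIndex :=
          haveI := N.quotient_finite_of_isOpen hN
          Subgroup.finiteIndex_of_finite_quotient
        refine ⟨σ ^ N.normalCore.index,
          N.normalCore_le (Subgroup.pow_index_mem N.normalCore σ), ?_⟩
        intro c
        rw [map_pow]
        exact hσ _ (Nat.pos_of_ne_zero Subgroup.FiniteIndex.index_ne_zero) c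

theorem typeN_traces {p d : ℕ} [hp : Fact p.Prime] {T : FrobFun K} {w : ℕ}
    {ρ : (Qbar ≃ₐ[K] Qbar) →* Matrix (Fin d) (Fin d) ℂ_[p]} (ι : K →+* ℂ_[p])
    (hT : FrobeniusValues (fun σ => (ρ σ).trace) fun F _ _ φ => ι (T F φ)) {e : ℕ} {ζ : 𝓞 K}
    {N n b : ℕ} {f : Pool.Agent.TF.SymForm K N n b} (h : NormData T w ρ e ζ f) :
    HasTraces (fun σ => (ρ σ).trace) ι (p ^ e) ζ f.G := by
  obtain ⟨B, hB⟩ := hT
  refine ⟨B, fun q hq hqB Q hQ hqQ F _ _ φ hφ σ hσ => ?_⟩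
  have h1 := hB q hq hqB Q hQ hqQ F φ hφ σ hσ
  have h2 := congrArg ι (h.sum F φ)
  rw [map_mul, map_sub, map_natCast, map_one, map_mul, map_pow, map_neg, map_one] at h2
  rw [← h2]
  have h3 : (fun σ => (ρ σ).trace) σ⁻¹ = ι (T F φ) := h1
  rw [h3]

/-- Type (N): the dimension and the logarithms. -/
theorem typeN_big {p : ℕ} [hp : Fact p.Prime] (hp2 : p ≠ 2) {d : ℕ} (T : FrobFun K) (w : ℕ)
    (ρ : (Qbar ≃ₐ[K] Qbar) →* Matrix (Fin d) (Fin d) ℂ_[p]) (hρ : Continuous ρ)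
    (ι : K →+* ℂ_[p]) (hT : FrobeniusValues (fun σ => (ρ σ).trace) fun F _ _ φ => ι (T F φ))
    (h : TypeN T w ρ) : 3 ≤ d ∧ Big p (fun _ : Unit => ρ) ∧
      ∀ e : ℕ, 0 < e → ∃ σ, (cycC p σ ^ (w * d) * (ρ σ).det ^ 2) ^ e ≠ 1 := by
  have hgal := fin_galois K
  obtain ⟨e, ζ, N, n, b, f, h⟩ := h
  have hT' := typeN_traces ι hT h
  have hN := h.two_le
  have hn := h.size
  have h3 : 3 ≤ d := by
    rw [h.dim]
    split_ifs
    · exact choose_ge (by omega) (by omega)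
    · exact choose_ge (by omega) (by omega)
  refine ⟨h3, ?_, ?_⟩
  · obtain ⟨s, hs, hr, hdet⟩ := h.refl
    refine norm_bigTE hp2 (fun _ : Unit => f) (fun _ => h.e_ne) (fun _ => h.prim) (fun _ => h.dvd)
      (fun _ => h.case) (fun _ => h.two_le) (fun _ => h.size) (fun _ => ι) (fun _ => h.dim)
      (fun _ => ρ) (fun _ => hρ) (fun _ => hT') (fun _ => s) (fun _ => hs) (fun _ => ?_)
    by_cases h1 : (ρ s).det = 1
    · right
      refine ⟨hr.le, h1, ?_, fun c hc => absurd (Subsingleton.elim c _) hc⟩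
      intro h2
      have h4 : (ρ s - 1).rank = 0 := by
        rw [h2, sub_self, Matrix.rank_zero]
      omega
    · left
      refine ⟨fun _ => hr.le, ?_, fun c hc => absurd (Subsingleton.elim c _) hc,
        fun c hc => absurd (Subsingleton.elim c _) hc⟩
      intro h2
      have h2' : (ρ s).det ^ 2 = 1 := h2
      have h5 : ((ρ s).det - 1) * ((ρ s).det + 1) = 0 := by
        linear_combination h2'
      rcases mul_eq_zero.1 h5 with h4 | h4
      · exact h1 (sub_eq_zero.1 h4)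
      · exact hdet (eq_neg_of_add_eq_zero_left h4)
  · intro k hk
    have hm : 2 < p ^ e := by
      have hp3 : 2 < p := lt_of_le_of_ne (Fact.out : p.Prime).two_le (Ne.symm hp2)
      exact hp3.trans_le (Nat.le_self_pow h.e_ne p)
    exact Pool.Agent.DET.det_main f hm h.e_ne h.prim h.dvd h.case (by omega) (by omega) ι h.dim ρ
      hT' h.weight.le k hk

/-- If relations involve at most one of the normalised determinants, and only one that has infinite
order, then there is no relation. -/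
theorem norel_of {G : Type*} [Group G] {C : Type*} [Field C] {D : κ → ℕ}
    [TopologicalSpace G] [IsTopologicalGroup G] [CompactSpace G] (χ : G → C)
    (hχ1 : χ 1 = 1) (hχm : ∀ g h, χ (g * h) = χ g * χ h) (w : κ → ℕ) (ρ : Reps G C D)
    (E : κ → Prop) {m : ℕ} (j : Fin m → κ) (hi : Independent χ w ρ E j)
    (hdet : ∀ a, E a → ∀ e : ℕ, 0 < e → ∃ σ : G, (χ σ ^ (w a * D a) * (ρ a σ).det ^ 2) ^ e ≠ 1) :
    NoRel χ w ρ j := by
  intro H hH t ht h a
  by_contra ha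
  obtain ⟨hE, hb⟩ := hi H hH t ht h a ha
  have h1 : ∀ g ∈ H, wdet χ w ρ a g ^ t a = 1 := by
    intro g hg
    rw [← h g hg]
    symm
    refine Finset.prod_eq_single a (fun b _ hb' => ?_) (fun h' => absurd (Finset.mem_univ a) h')
    have : t b = 0 := by
      by_contra h2
      exact hb' (hb b h2)
    rw [this, zpow_zero]
  have hfi : H.FiniteIndex :=
    haveI := H.quotient_finite_of_isOpen hH
    Subgroup.finiteIndex_of_finite_quotient
  obtain ⟨σ, hσ⟩ := hdet a hE ((t a).natAbs * H.normalCore.index) (Nat.mul_pos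
    (Int.natAbs_pos.2 ha) (Nat.pos_of_ne_zero Subgroup.FiniteIndex.index_ne_zero))
  apply hσ
  have hw : χ σ ^ (w a * D a) * (ρ a σ).det ^ 2 = wdet χ w ρ a σ := mul_comm _ _
  have hχp : ∀ (g : G) (k : ℕ), χ (g ^ k) = χ g ^ k := by
    intro g k
    induction k with
    | zero => rw [pow_zero, pow_zero, hχ1]
    | succ k ih => rw [pow_succ, hχm, ih, pow_succ]
  have hwp : ∀ (g : G) (k : ℕ), wdet χ w ρ a (g ^ k) = wdet χ w ρ a g ^ k := by
    intro g k
    unfold wdet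
    rw [map_pow, Matrix.det_pow, hχp, mul_pow, ← pow_mul, ← pow_mul, ← pow_mul, ← pow_mul,
      mul_comm k 2, mul_comm k (w a * D a)]
  have hmem : σ ^ H.normalCore.index ∈ H :=
    H.normalCore_le (Subgroup.pow_index_mem H.normalCore σ)
  have h2 := h1 _ hmem
  rw [hw, mul_comm, pow_mul, ← hwp]
  rcases Int.natAbs_eq (t a) with h3 | h3
  · rw [h3, zpow_natCast] at h2
    exact h2
  · rw [h3, _root_.zpow_neg, zpow_natCast, inv_eq_one] at h2
    exact h2

/-- **All powers.** -/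
theorem unified_powers {p : ℕ} [hp : Fact p.Prime] (hp2 : p ≠ 2) (S : Family K κ)
    (ip : Qbar →+* ℂ_[p]) (ρ : Reps (Qbar ≃ₐ[K] Qbar) ℂ_[p] D) (hρ : Realises S ip ρ) (w : κ → ℕ)
    (ht : ∀ a, TypeS (S.T a) (ρ a) ∨ TypeN (S.T a) (w a) (ρ a)) (hu : Unrelated ρ)
    {m : ℕ} (j : Fin m → κ)
    (hi : Independent (cycC p) w ρ (fun a => TypeN (S.T a) (w a) (ρ a)) j) :
    Generated (cycC p) w ρ j ∧
      ∀ (ℓ : ℕ) [Fact ℓ.Prime] (il : Qbar →+* ℂ_[ℓ]) (π : Reps (Qbar ≃ₐ[K] Qbar) ℂ_[ℓ] D),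
        Realises S il π → Balanced (cycC ℓ) w π j ∧
          (IrreducibleOn π ⊤ → Generated (cycC ℓ) w π j) ∧
          (Companions ip il π → IrreducibleOn π ⊤) := by
  have hgal := fin_galois K
  have hT : ∀ a, FrobeniusValues (fun σ => (ρ a σ).trace) fun F _ _ φ =>
      (ip.comp (S.emb a)) (S.T a F φ) := hρ.traces
  have hone : ∀ a, 3 ≤ D a ∧ Big p (fun _ : Unit => ρ a) := by
    intro a
    rcases ht a with h | h
    · exact typeS_big hp2 (S.T a) (ρ a) (hρ.cont a) (ip.comp (S.emb a)) (hT a) h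
    · obtain ⟨h1, h2, -⟩ := typeN_big hp2 (S.T a) (w a) (ρ a) (hρ.cont a) (ip.comp (S.emb a))
        (hT a) h
      exact ⟨h1, h2⟩
  have hb : Big p ρ := big_of_single (fin_p0 p) (norm_p_lt p) ρ hρ.cont (fun a => (hone a).2) hu
  have hn : NoRel (cycC p) w ρ j := norel_of (cycC p) cycC_one cycC_mul w ρ _ j hi
    fun a ha => (typeN_big hp2 (S.T a) (w a) (ρ a) (hρ.cont a) (ip.comp (S.emb a)) (hT a) ha).2.2
  obtain ⟨h1, h2⟩ := powers_of_big (fun a => (hone a).1) ip ρ hρ.cont hb w j hn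
  exact ⟨h1, fun ℓ _ il π hπ => h2 ℓ il π hπ.cont (ru_compat S ip il ρ π hρ hπ)⟩

end

end Pool.Agent.RU
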